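import Pool.Agent.Helper29.OT.St

/-!
# Project OT, module LT: the exact local theorem near the clique
-/

set_option autoImplicit false

namespace Pool.Agent.Helper24.OT

open Finset Pool.Agent.Helper14.FEM Pool.Agent.Helper3.EMK Pool.Agent.Helper29.TK
  Pool.Agent.Helper29.OT

theorem LT_exc_mono {V : Type} (k : ℕ) (x : V → ℝ) (A B : Finset V) (h : A ⊆ B) :
    exc k x A ≤ exc k x B :=
  Finset.sum_le_sum_of_subset_of_nonneg h fun _ _ _ => le_max_right _ _

/-- disjoint heavy `(k-1)`-sets force excess -/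
theorem LT_j_le {n : ℕ} (k j : ℕ) (hk : 2 ≤ k) (x : Fin n → ℝ) (R : Fin j → Finset (Fin n))
    (hc : ∀ i, #(R i) = k - 1) (h1 : ∀ i, 1 ≤ ∑ l ∈ R i, x l)
    (hd : ∀ i i', i ≠ i' → Disjoint (R i) (R i')) : (j : ℝ) ≤ exc k x univ := by
  have hk1 : 1 ≤ k := by omega
  have h2 : ∀ i, (1 : ℝ) ≤ ∑ l ∈ R i, max (k * x l - 1) 0 := by
    intro i
    calc (1 : ℝ) ≤ k * ∑ l ∈ R i, x l - ((k - 1 : ℕ) : ℝ) := by
          have := h1 i
          have hk0 : (0 : ℝ) ≤ k := by positivity
          push_cast [hk1]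
          nlinarith
      _ = ∑ l ∈ R i, (k * x l - 1) := by
          rw [Finset.sum_sub_distrib, ← Finset.mul_sum, Finset.sum_const, hc i, nsmul_eq_mul,
            mul_one]
      _ ≤ _ := Finset.sum_le_sum fun l _ => le_max_left _ _
  calc (j : ℝ) = ∑ _i : Fin j, (1 : ℝ) := by simp
    _ ≤ ∑ i : Fin j, ∑ l ∈ R i, max (k * x l - 1) 0 := Finset.sum_le_sum fun i _ => h2 i
    _ = ∑ l ∈ (univ : Finset (Fin j)).biUnion R, max (k * x l - 1) 0 := by
        rw [Finset.sum_biUnion]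
        intro i _ i' _ hne
        exact hd i i' hne
    _ ≤ exc k x univ := LT_exc_mono k x _ _ (Finset.subset_univ _)

theorem hLT (hL3 : StL3) (hBE : StBE) (hOU : StOU) (hDF : StDF) (hCI : StCI) (hCJ : StCJ) :
    StLT := by
  intro k n s hk hs hn x hx hsum hsupp K hK hK1 hsK hβ
  have hk0 : (0 : ℝ) < k := by exact_mod_cast (by omega : 0 < k)
  have hk2 : (2 : ℝ) ≤ k := by exact_mod_cast hk
  have hs0 : (0 : ℝ) < s := by exact_mod_cast (by omega : 0 < s)
  have hnR : (k : ℝ) * s ≤ n := by exact_mod_cast hn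
  have hks0 : (0 : ℝ) < (k : ℝ) * s := by positivity
  have hks1 : 1 ≤ k * s := Nat.mul_pos (by omega) (by omega)
  have hkks : k ≤ k * s := Nat.le_mul_of_pos_right k (by omega)
  have hk4 : (4 : ℝ) ≤ (k : ℝ) ^ 2 := by nlinarith
  have hk2K : (k : ℝ) ^ 2 * 1 ≤ (k : ℝ) ^ 2 * K := mul_le_mul_of_nonneg_left hK1 (by positivity)
  have hkK : 2 * (k : ℝ) * K ≤ (k : ℝ) ^ 2 * K := by nlinarith
  have hs160 : (160 : ℝ) ≤ s := by nlinarith
  have hs2 : 2 ≤ s := by
    by_contra hcon
    have : s ≤ 1 := by omega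
    have : (s : ℝ) ≤ 1 := by exact_mod_cast this
    linarith
  -- the set `A`
  obtain ⟨A, hAsub, hAc⟩ : ∃ A : Finset (Fin n), ({i | x i ≠ 0} : Finset (Fin n)) ⊆ A ∧
      #A = k * s := by
    apply Finset.exists_superset_card_eq hsupp.le
    rw [Fintype.card_fin]; exact hn
  have h0 : ∀ i, i ∉ A → x i = 0 := by
    intro i hi
    by_contra hne
    exact hi (hAsub (by simp [hne]))
  have hsumA : ∑ i ∈ A, x i < s := by
    refine lt_of_le_of_lt (Finset.sum_le_sum_of_subset_of_nonneg (Finset.subset_univ A)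
      fun i _ _ => hx i) hsum
  have hKA : exc k x A ≤ K := (LT_exc_mono k x _ _ (Finset.subset_univ A)).trans hK
  have hcA := hL3 n k s (by omega) hs x hx A hAc hsumA
  have hou := hOU n k (by omega) A x hx h0 (by rw [hAc]; omega)
  rw [hAc] at hou
  have hCpos : (0 : ℝ) < ((k * s).choose (k - 1) : ℝ) := by
    exact_mod_cast Nat.choose_pos (by omega)
  set H : Finset (Finset (Fin n)) := {e ∈ A.powersetCard (k - 1) | (1 : ℝ) ≤ ∑ i ∈ e, x i} with hH
  have hHc : (cnt A x (k - 1) 1 : ℝ) = (#H : ℝ) := by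
    rw [cnt, hH]
  rcases Finset.eq_empty_or_nonempty H with hHe | hHne
  · -- no heavy `(k-1)`-sets
    rw [hHc, hHe, Finset.card_empty, Nat.cast_zero, mul_zero, add_zero] at hou
    have h1 : (cnt univ x k 1 : ℝ) ≤ cnt A x k 1 := le_of_mul_le_mul_right hou hCpos
    have h2 : cnt univ x k 1 ≤ cnt A x k 1 := by exact_mod_cast h1
    exact h2.trans hcA
  · obtain ⟨j, R, hj, hRH, hRd, hDFκ⟩ := hDF (Fin n) A (k - 1) (by omega) H
      (Finset.filter_subset _ _) hHne
    have hRmem : ∀ i, R i ⊆ A ∧ #(R i) = k - 1 ∧ 1 ≤ ∑ l ∈ R i, x l := by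
      intro i
      have h := hRH i
      rw [hH, Finset.mem_filter, Finset.mem_powersetCard] at h
      exact ⟨h.1.1, h.1.2, h.2⟩
    have hjK : (j : ℝ) ≤ K :=
      (LT_j_le k j hk x R (fun i => (hRmem i).2.1) (fun i => (hRmem i).2.2) hRd).trans hK
    have hj1 : (1 : ℝ) ≤ j := by exact_mod_cast hj
    -- bound for `#H`
    have hm : ((k - 1 : ℕ) : ℝ) = (k : ℝ) - 1 := by
      have : 1 ≤ k := by omega
      push_cast [this]; ring
    have hκ := hDFκ (1 / (20 * k)) (by positivity) (by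
      rw [hm, hAc, one_div, inv_mul_eq_div, le_div_iff₀ (by positivity)]
      push_cast
      have h1 : ((j : ℝ) + 1) * (k - 1) * (k - 1 - 1) ≤ (2 * K) * ((k - 1) * (k - 1 - 1)) := by
        rw [mul_assoc]
        apply mul_le_mul_of_nonneg_right (by linarith)
        apply mul_nonneg <;> linarith
      have h2 : ((j : ℝ) + 1) * (k - 1) * (k - 1 - 1) * (20 * k) ≤
          (2 * K) * ((k - 1) * (k - 1 - 1)) * (20 * k) :=
        mul_le_mul_of_nonneg_right h1 (by positivity)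
      have h3 : 40 * (k : ℝ) ^ 2 * K * k ≤ s * k := mul_le_mul_of_nonneg_right hsK hk0.le
      have h4 : (4 : ℝ) ≤ 2 * K * (3 * k - 2) := by nlinarith
      nlinarith)
    rw [hAc, hm] at hκ
    have hCm0 : (0 : ℝ) ≤ ((k * s - 1).choose (k - 1 - 1) : ℝ) := by positivity
    have hH1 : (#H : ℝ) ≤ 21 / 20 * j * ((k * s - 1).choose (k - 1 - 1) : ℝ) := by
      refine hκ.trans (mul_le_mul_of_nonneg_right ?_ hCm0)
      have : (1 + ((k : ℝ) - 1) * (1 / (20 * k))) ≤ 21 / 20 := by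
        have : ((k : ℝ) - 1) * (1 / (20 * k)) ≤ 1 / 20 := by
          rw [mul_one_div, div_le_div_iff₀ (by positivity) (by norm_num)]
          linarith
        linarith
      nlinarith
    -- `ks C(ks-1,k-2) = (k-1) C(ks,k-1)`
    have hid : (k : ℝ) * s * ((k * s - 1).choose (k - 1 - 1) : ℝ) =
        ((k * s).choose (k - 1) : ℝ) * ((k : ℝ) - 1) := by
      have h := Nat.add_one_mul_choose_eq (k * s - 1) (k - 1 - 1)
      have e1 : k * s - 1 + 1 = k * s := by omega
      have e2 : k - 1 - 1 + 1 = k - 1 := by omega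
      rw [e1, e2] at h
      rw [← hm]
      exact_mod_cast h
    -- step 7
    set β : ℝ := (n : ℝ) / (k * s) with hβd
    have hβ1 : 1 ≤ β := by rw [hβd, one_le_div hks0]; exact hnR
    set Cn : ℝ := (n.choose (k - 1) : ℝ) with hCn
    have hCn0 : 0 ≤ Cn := by positivity
    have h7 : (cnt univ x k 1 : ℝ) ≤ cnt A x k 1 + ((k : ℝ) - 1) * (β - 1) * (21 / 20) * j * Cn := by
      apply le_of_mul_le_mul_right _ hCpos
      refine hou.trans ?_
      rw [add_mul, hHc]
      push_cast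
      have h8 : ((n : ℝ) - k * s) * Cn * #H ≤
          ((n : ℝ) - k * s) * Cn * (21 / 20 * j * ((k * s - 1).choose (k - 1 - 1) : ℝ)) :=
        mul_le_mul_of_nonneg_left hH1 (mul_nonneg (by linarith) hCn0)
      have h9 : (n : ℝ) - k * s = (β - 1) * (k * s) := by
        rw [hβd]; field_simp
      have h10 : ((n : ℝ) - k * s) * Cn * (21 / 20 * j * ((k * s - 1).choose (k - 1 - 1) : ℝ)) =
          ((k : ℝ) - 1) * (β - 1) * (21 / 20) * j * Cn * ((k * s).choose (k - 1) : ℝ) := by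
        rw [h9]
        linear_combination ((β - 1) * Cn * (21 / 20) * j) * hid
      linarith
    -- step 8
    set E : ℝ := ((k * s - 1).choose (k - 1) : ℝ) with hE
    have hE0 : 0 ≤ E := by positivity
    have hbe := hBE.2 k s n hk hs hn
    rw [← hβd] at hbe
    have hbern : (79 / 80 : ℝ) ≤ (1 - 1 / (s : ℝ)) ^ (k - 1) := by
      have h1 : 1 + ((k - 1 : ℕ) : ℝ) * (-(1 / (s : ℝ))) ≤ (1 + -(1 / (s : ℝ))) ^ (k - 1) :=
        one_add_mul_le_pow (by
          have : 1 / (s : ℝ) ≤ 1 := by rw [div_le_one hs0]; linarith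
          linarith) _
      rw [hm] at h1
      have h2 : ((k : ℝ) - 1) * (1 / s) ≤ 1 / 80 := by
        rw [mul_one_div, div_le_div_iff₀ hs0 (by norm_num)]
        nlinarith
      have h3 : (1 - 1 / (s : ℝ)) = 1 + -(1 / (s : ℝ)) := by ring
      rw [h3]
      linarith
    have hCE : 79 / 80 * Cn ≤ β ^ (k - 1) * E :=
      (mul_le_mul_of_nonneg_right hbern hCn0).trans hbe
    have h8 : ((k : ℝ) - 1) * (β - 1) * (21 / 20) * j * Cn ≤ 63 / 79 * j * E := by
      have h1 : 0 ≤ ((k : ℝ) - 1) * (β - 1) := mul_nonneg (by linarith) (by linarith)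
      have h2 : ((k : ℝ) - 1) * (β - 1) * (79 / 80 * Cn) ≤
          ((k : ℝ) - 1) * (β - 1) * (β ^ (k - 1) * E) := mul_le_mul_of_nonneg_left hCE h1
      have h3 : ((k : ℝ) - 1) * (β - 1) * β ^ (k - 1) * E ≤ 3 / 4 * E :=
        mul_le_mul_of_nonneg_right hβ hE0
      have h4 : ((k : ℝ) - 1) * (β - 1) * (79 / 80 * Cn) ≤ 3 / 4 * E := by
        rw [← mul_assoc] at h2; linarith
      have h5 : ((k : ℝ) - 1) * (β - 1) * Cn ≤ 60 / 79 * E := by nlinarith
      have h6 : (21 / 20 * j) * (((k : ℝ) - 1) * (β - 1) * Cn) ≤ (21 / 20 * j) * (60 / 79 * E) :=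
        mul_le_mul_of_nonneg_left h5 (by positivity)
      nlinarith
    -- step 9
    have h9 : (cnt A x k 1 : ℝ) + (j + 1) * (1 - 3 * k * K / s) * E ≤ (k * s).choose k := by
      by_cases hU : j + 1 ≤ #{i ∈ A | x i ≤ (1 - 1 / (k : ℝ)) / k}
      · obtain ⟨U, hUsub, hUc⟩ := Finset.exists_subset_card_eq hU
        exact hCI (Fin n) k s j hk A U x K hAc hKA hj hjK hsK
          (hUsub.trans (Finset.filter_subset _ _)) hUc
          (fun i hi => (Finset.mem_filter.1 (hUsub hi)).2)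
      · exact hCJ (Fin n) k s j hk A {i ∈ A | x i ≤ (1 - 1 / (k : ℝ)) / k} x K hx hAc hsumA hKA hj
          hjK hsK (fun i => by rw [Finset.mem_filter]) (by omega) R (fun i => (hRmem i).1)
          (fun i => (hRmem i).2.1) (fun i => (hRmem i).2.2) hRd
    -- step 10
    have h10 : ((k * s).choose k : ℝ) = E + (k * s - 1).choose k := by
      have h := Nat.choose_succ_succ (k * s - 1) (k - 1)
      simp only [Nat.succ_eq_add_one] at h
      have e1 : k * s - 1 + 1 = k * s := by omega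
      have e2 : k - 1 + 1 = k := by omega
      rw [e1, e2] at h
      rw [h, hE]
      push_cast
      ring
    have h11 : 77 / 80 ≤ 1 - 3 * (k : ℝ) * K / s := by
      have : 3 * (k : ℝ) * K / s ≤ 3 / 80 := by
        rw [div_le_div_iff₀ hs0 (by norm_num)]
        nlinarith
      linarith
    have h12 : ((j : ℝ) + 1) * (77 / 80) * E ≤ (j + 1) * (1 - 3 * k * K / s) * E :=
      mul_le_mul_of_nonneg_right (mul_le_mul_of_nonneg_left h11 (by positivity)) hE0
    have h13 : E - ((j : ℝ) + 1) * (77 / 80) * E + 63 / 79 * j * E ≤ 0 := by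
      have : E - ((j : ℝ) + 1) * (77 / 80) * E + 63 / 79 * j * E =
        -((j * (77 / 80 - 63 / 79) - 3 / 80) * E) := by ring
      rw [this]
      have h14 : 0 ≤ ((j : ℝ) * (77 / 80 - 63 / 79) - 3 / 80) := by linarith
      linarith [mul_nonneg h14 hE0]
    have h15 : (cnt univ x k 1 : ℝ) ≤ ((k * s - 1).choose k : ℕ) := by linarith
    exact_mod_cast h15

end Pool.Agent.Helper24.OT
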