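import Pool.Agent.Helper29.OT.St
import Pool.Agent.Helper29.TK.M_BA

/-!
# Project OT, module SA: light mass on the star side
-/

set_option autoImplicit false

namespace Pool.Agent.Helper24.OT

open Finset Pool.Agent.Helper14.FEM Pool.Agent.Helper3.EMK Pool.Agent.Helper29.TK
  Pool.Agent.Helper29.OT

theorem SA_pow_sub (k : ℕ) (u v : ℝ) (hv : 0 ≤ v) (huv : v ≤ u) (hu : u ≤ 1) :
    u ^ k - v ^ k ≤ k * (u - v) := by
  induction k with
  | zero => simp
  | succ k ih =>
    have h1 : u ^ (k + 1) - v ^ (k + 1) = u * (u ^ k - v ^ k) + (u - v) * v ^ k := by ring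
    have h2 : v ^ k ≤ 1 := pow_le_one₀ hv (huv.trans hu)
    have h3 : 0 ≤ u ^ k - v ^ k := sub_nonneg.2 (pow_le_pow_left₀ hv huv k)
    have h4 : u * (u ^ k - v ^ k) ≤ 1 * (u ^ k - v ^ k) := mul_le_mul_of_nonneg_right hu h3
    have h5 : (u - v) * v ^ k ≤ (u - v) * 1 :=
      mul_le_mul_of_nonneg_left h2 (sub_nonneg.2 huv)
    rw [h1]
    push_cast
    linarith

theorem SA_pow_sub_ge (k : ℕ) (u v : ℝ) (hv : 0 ≤ v) (huv : v ≤ u) (hk : 1 ≤ k) :
    k * (u - v) * v ^ (k - 1) ≤ u ^ k - v ^ k := by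
  induction k with
  | zero => omega
  | succ k ih =>
    rcases Nat.eq_zero_or_pos k with h0 | h0
    · subst h0; simp
    · have h := ih h0
      have h1 : u ^ (k + 1) - v ^ (k + 1) = u * (u ^ k - v ^ k) + (u - v) * v ^ k := by ring
      have h3 : 0 ≤ u ^ k - v ^ k := sub_nonneg.2 (pow_le_pow_left₀ hv huv k)
      have h4 : v * (u ^ k - v ^ k) ≤ u * (u ^ k - v ^ k) := mul_le_mul_of_nonneg_right huv h3
      have h5 : v * (k * (u - v) * v ^ (k - 1)) ≤ v * (u ^ k - v ^ k) :=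
        mul_le_mul_of_nonneg_left h hv
      have h6 : v * (k * (u - v) * v ^ (k - 1)) = k * (u - v) * v ^ k := by
        obtain ⟨j, rfl⟩ := Nat.exists_eq_succ_of_ne_zero h0.ne'
        simp only [Nat.succ_eq_add_one, Nat.add_sub_cancel]
        ring
      rw [h1, Nat.add_sub_cancel]
      push_cast
      linarith

theorem SA_rt_pow (k : ℕ) (hk : 1 ≤ k) (P : ℝ) (hP : 0 ≤ P) : rt k P ^ k = P := by
  rw [rt, one_div]
  exact Real.rpow_inv_natCast_pow hP (by omega)

theorem SA_rt_nonneg (k : ℕ) (P : ℝ) (hP : 0 ≤ P) : 0 ≤ rt k P :=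
  Real.rpow_nonneg hP _

theorem SA_rt_le_one (k : ℕ) (P : ℝ) (hP : 0 ≤ P) (hP1 : P ≤ 1) : rt k P ≤ 1 :=
  Real.rpow_le_one hP hP1 (by positivity)

theorem SA_split (n k : ℕ) (hn : 1 ≤ n) (x : Fin n → ℝ) (hx : ∀ i, 0 ≤ x i) :
    Ex (un n) x k (fun t => if t < 1 then t else 0) =
      k * mean (un n) x - Pr (un n) x k 1 - Gx (un n) x k 1 := by
  have hq : ∑ i, un n i = 1 := by
    simp only [un, Finset.sum_const, Finset.card_univ, Fintype.card_fin, nsmul_eq_mul]
    have : (n : ℝ) ≠ 0 := by exact_mod_cast (by omega : n ≠ 0)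
    field_simp
  rw [← Ex_id (un n) x hq, Pr, Gx, ← Ex_sub, ← Ex_sub]
  apply Ex_congr _ _ hx
  intro t ht
  by_cases h : t < 1
  · rw [if_pos h, if_neg (by linarith), max_eq_right (by linarith)]; ring
  · rw [if_neg h, if_pos (by linarith), max_eq_left (by linarith)]; ring

theorem hSA (hAA : StAA) (hNA : StNA) (hPC : StPC) : StSA := by
  intro k n s hk hT hI hs hn hn2 x hx hsum D hD hDn hgap hc
  have hk0 : (0 : ℝ) < k := by exact_mod_cast (by omega : 0 < k)
  have hk2 : (2 : ℝ) ≤ k := by exact_mod_cast hk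
  have hs0 : (0 : ℝ) < s := by exact_mod_cast (by omega : 0 < s)
  have hnn : 1 ≤ n := le_trans (Nat.mul_pos (by omega) (by omega)) hn
  have hn0 : (0 : ℝ) < n := by exact_mod_cast (by omega : 0 < n)
  have hnR : (k : ℝ) * s ≤ n := by exact_mod_cast hn
  have hn2R : (n : ℝ) ≤ (k + 2) * s := by exact_mod_cast hn2
  set a : ℝ := (s : ℝ) / n with ha
  have ha0 : 0 < a := div_pos hs0 hn0
  have hka1 : (k : ℝ) * a ≤ 1 := by
    rw [ha, ← mul_div_assoc, div_le_one hn0]; exact hnR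
  have hka : (1 : ℝ) / 2 ≤ k * a := by
    rw [ha, ← mul_div_assoc, le_div_iff₀ hn0]
    nlinarith
  have ha12 : a ≤ 1 / 2 := by nlinarith
  have hak : a ≤ 1 / k := by rw [le_div_iff₀ hk0]; linarith
  have e1 : (k : ℝ) * s / n = k * a := by rw [ha, mul_div_assoc]
  rw [e1] at hgap
  set S : ℝ := 1 - (1 - a) ^ k with hS
  have hq : ∀ i, 0 ≤ un n i := fun i => by simp only [un]; positivity
  have hq1 : ∑ i, un n i = 1 := by
    simp only [un, Finset.sum_const, Finset.card_univ, Fintype.card_fin, nsmul_eq_mul]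
    field_simp
  set P : ℝ := Pr (un n) x k 1 with hP
  set G : ℝ := Gx (un n) x k 1 with hG
  set m : ℝ := mean (un n) x with hm
  have hma : m < a := by
    simp only [hm, mean, un, ← Finset.mul_sum, ha]
    rw [one_div, inv_mul_eq_div]
    exact div_lt_div_of_pos_right hsum hn0
  -- the lower bound for `1 - S`
  have hv14 : (1 / 4 : ℝ) ≤ (1 - a) ^ k := by
    refine le_trans (hNA.1 k hk) (pow_le_pow_left₀ ?_ (by linarith) k)
    rw [sub_nonneg, div_le_one hk0]; linarith
  have hv0 : 0 < 1 - a := by linarith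
  have hS34 : S ≤ 3 / 4 := by rw [hS]; linarith
  have hS1 : S < 1 := by linarith
  -- lower bound for `S`
  have hS13 : (1 / 3 : ℝ) ≤ S := by
    have h1 : (1 + k * a) ≤ (1 + a) ^ k := one_add_mul_le_pow (by linarith) k
    have h2 : (1 - a) ^ k * (1 + a) ^ k ≤ 1 := by
      rw [← mul_pow]
      exact pow_le_one₀ (by nlinarith) (by nlinarith)
    have h3 : (1 - a) ^ k * (1 + k * a) ≤ 1 :=
      le_trans (mul_le_mul_of_nonneg_left h1 (by positivity)) h2
    have h4 : 0 ≤ (1 - a) ^ k := by positivity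
    rw [hS]
    nlinarith
  -- `ζ`
  set ζ : ℝ := (k : ℝ) ^ 2 / (2 * n) with hζ
  have hζ0 : 0 ≤ ζ := by positivity
  have hka0 : 0 ≤ (k * a) ^ k := by positivity
  have hD1 : D ≤ 1 := by linarith
  have hζD : ζ * (2400 * k ^ 2) ≤ D := by
    rw [hζ, div_mul_eq_mul_div, div_le_iff₀ (by positivity)]
    nlinarith
  have hk4 : (4 : ℝ) ≤ (k : ℝ) ^ 2 := by nlinarith
  have hζs : ζ * 9600 ≤ D := by nlinarith
  -- `P ≥ S - ζ`
  have hPS : S - ζ ≤ P := by
    have h1 := hPC.1 n k x hnn hx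
    have h2 := hPC.2.2 k n s hk hs (by nlinarith)
    have h3 : (n.choose k : ℝ) ≤ cnt univ x k 1 + (n - s + 1).choose k := by exact_mod_cast hc
    have hf : (0 : ℝ) < k.factorial := by exact_mod_cast k.factorial_pos
    have h4 : (k.factorial : ℝ) * ((n.choose k : ℝ) - (n - s + 1).choose k) ≤
        k.factorial * cnt univ x k 1 := mul_le_mul_of_nonneg_left (by linarith) hf.le
    have h5 : (n : ℝ) ^ k - ((n : ℝ) - s) ^ k ≤ n ^ k * P + (k : ℝ) ^ 2 / 2 * n ^ (k - 1) := by
      linarith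
    have e2 : (n : ℝ) ^ k - ((n : ℝ) - s) ^ k = n ^ k * S := by
      rw [hS, mul_sub, mul_one, ← mul_pow, mul_sub, mul_one, ha]
      congr 2
      field_simp
    have e3 : (k : ℝ) ^ 2 / 2 * (n : ℝ) ^ (k - 1) = n ^ k * ζ := by
      obtain ⟨j, rfl⟩ := Nat.exists_eq_succ_of_ne_zero (by omega : k ≠ 0)
      simp only [Nat.succ_eq_add_one, Nat.add_sub_cancel, hζ]
      field_simp
      ring
    rw [e2, e3, ← mul_add] at h5
    have := le_of_mul_le_mul_left h5 (by positivity)
    linarith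
  -- `P ≤ S`
  have hPleS : P ≤ S := by
    have h1 := hI (Fin n) (un n) x hq hq1 hx a ha0 hak hma.le
    have h2 : (∑ ω : Fin k → Fin n, if 1 ≤ ∑ j, x (ω j) then ∏ j, un n (ω j) else 0) = P := by
      rw [hP, Pr, ← hLK]
      refine Finset.sum_congr rfl fun ω _ => ?_
      split_ifs <;> simp
    rw [h2] at h1
    refine h1.trans (max_le le_rfl ?_)
    linarith
  have hP0 : 0 < P := by linarith
  have hP1 : P < 1 := by linarith
  -- (i)
  have hr1 : k * a + D / (2 * k) ≤ rt k P := by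
    have h1 := SA_rt_pow k (by omega) P hP0.le
    have h2 := SA_rt_nonneg k P hP0.le
    have h3 := SA_rt_le_one k P hP0.le hP1.le
    have h4 : (k * a) ^ k < rt k P ^ k := by rw [h1]; linarith
    have h5 : k * a < rt k P := lt_of_pow_lt_pow_left₀ k h2 h4
    have h6 := SA_pow_sub k (rt k P) (k * a) (by positivity) h5.le h3
    rw [h1] at h6
    have h7 : D / 2 ≤ k * (rt k P - k * a) := by linarith
    have h8 : D / (2 * k) ≤ rt k P - k * a := by
      rw [div_le_iff₀ (by positivity)]; linarith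
    linarith
  -- (ii)
  have h1P : 0 ≤ 1 - P := by linarith
  have hw := SA_rt_pow k (by omega) (1 - P) h1P
  have hw0 := SA_rt_nonneg k (1 - P) h1P
  have hwv : 1 - a ≤ rt k (1 - P) := by
    by_contra hcon
    push_neg at hcon
    have := pow_lt_pow_left₀ hcon hw0 (by omega : k ≠ 0)
    rw [hw] at this
    linarith
  have hKle : KK k P ≤ k * a := by
    rw [KK]; nlinarith
  have hKge : k * a - 4 * ζ ≤ KK k P := by
    have h1 := SA_pow_sub_ge k (rt k (1 - P)) (1 - a) hv0.le hwv (by omega)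
    rw [hw] at h1
    have h2 : (1 / 4 : ℝ) ≤ (1 - a) ^ (k - 1) :=
      hv14.trans (pow_le_pow_of_le_one hv0.le (by linarith) (by omega))
    have h3 : 0 ≤ k * (rt k (1 - P) - (1 - a)) := by
      apply mul_nonneg hk0.le; linarith
    have h4 := mul_le_mul_of_nonneg_left h2 h3
    have h5 : k * (rt k (1 - P) - (1 - a)) ≤ 4 * ζ := by linarith
    rw [KK]
    linarith
  -- (iii)
  have hKP : 0 < KK k P - P := sub_pos.2 ((hAA k hk).1 P hP0 hP1.le)
  have hKP1 : KK k P - P ≤ 1 := by linarith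
  have hTT := hT (Fin n) (un n) x 1 hq hq1 hx one_pos hP0 hP1
  rw [← hP, ← hG, ← hm, one_mul] at hTT
  set α : ℝ := (rt k P - KK k P) / (KK k P - P) with hα
  have hαA : AA k P = -α := by
    rw [AA, hα]; field_simp; ring
  have hα0 : D / (2 * k) ≤ α := by
    rw [hα, le_div_iff₀ hKP]
    have h1 : D / (2 * k) * (KK k P - P) ≤ D / (2 * k) * 1 :=
      mul_le_mul_of_nonneg_left hKP1 (by positivity)
    linarith
  have hαeq : α * (KK k P - P) = rt k P - KK k P := by
    rw [hα]; field_simp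
  have hα00 : 0 < α := lt_of_lt_of_le (by positivity) hα0
  rw [hαA] at hTT
  have hkm : k * m ≤ k * a := mul_le_mul_of_nonneg_left hma.le hk0.le
  have h10 : α * (KK k P - P - G) ≤ 4 * ζ := by nlinarith
  have h11 : KK k P - P - G ≤ 8 * k * ζ / D := by
    by_contra hcon
    push_neg at hcon
    have h12 : D / (2 * k) * (8 * k * ζ / D) = 4 * ζ := by field_simp; ring
    have h13 : 0 ≤ 8 * k * ζ / D := by positivity
    have h14 : α * (8 * k * ζ / D) < α * (KK k P - P - G) := mul_lt_mul_of_pos_left hcon hα00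
    have h15 : D / (2 * k) * (8 * k * ζ / D) ≤ α * (8 * k * ζ / D) :=
      mul_le_mul_of_nonneg_right hα0 h13
    linarith
  refine ⟨?_, by linarith⟩
  rw [SA_split n k hnn x hx]
  rw [← hP, ← hG, ← hm]
  have h16 : k * m - P - G ≤ 4 * ζ + 8 * k * ζ / D := by linarith
  refine h16.trans ?_
  have h17 : 4 * ζ ≤ 2 * k * ζ / D := by
    rw [le_div_iff₀ hD]
    nlinarith
  have h18 : 4 * ζ + 8 * k * ζ / D ≤ 10 * k * ζ / D := by
    have : 10 * k * ζ / D = 2 * k * ζ / D + 8 * k * ζ / D := by ring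
    linarith
  refine h18.trans ?_
  rw [div_le_div_iff₀ hD (by positivity)]
  nlinarith
end Pool.Agent.Helper24.OT
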